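import Pool.Agent.Helper76.TG.StG

/-!
# Project T3K, MODULE UIWT: the involution with a sign
-/

set_option autoImplicit false

namespace Pool.Agent.Helper73.TG

open Pool.Agent.Helper76.TG Pool.Agent.Helper14.CV Pool.Agent.Helper28.WK Pool.Agent.Helper28.LV

private theorem ext3 {p : ℕ} [Fact p.Prime] {x y : ℤ_[p]}
    (h : ∀ M : ℕ, 3 ≤ M → PadicInt.toZModPow M x = PadicInt.toZModPow M y) : x = y := by
  apply PadicInt.ext_of_toZModPow.1
  intro n
  rcases le_or_gt 3 n with hn | hn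
  · exact h n hn
  · have h2 := h 3 le_rfl
    rw [← PadicInt.cast_toZModPow n 3 (by omega) x, ← PadicInt.cast_toZModPow n 3 (by omega) y, h2]

private theorem or_l {k : ℤ} (hk : k ≠ 0) {x y : ℤ} (h : x ≠ 0 ∨ y ≠ 0) : k * x ≠ 0 ∨ y ≠ 0 := by
  rcases h with h0 | h0
  · exact Or.inl (mul_ne_zero hk h0)
  · exact Or.inr h0

private theorem or_w {k : ℤ} (hk : k ≠ 0) {x y : ℤ} (h : x ≠ 0 ∨ y ≠ 0) : -y ≠ 0 ∨ k * x ≠ 0 := by
  rcases h with h0 | h0
  · exact Or.inr (mul_ne_zero hk h0)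
  · exact Or.inl (neg_ne_zero.2 h0)

/-- The difference of the two symbols. -/
private def chi {R : Type} [AddCommGroup R] (p n : ℕ) (e : ℤ) (G : ℤ → ℤ → R) : ℤ → ℤ → R :=
  fun x y => G (-y) ((p : ℤ) ^ n * x) - e • G ((p : ℤ) * x) y

private theorem chi_homog {R : Type} [AddCommGroup R] {p n : ℕ} {e : ℤ} (hp : (p : ℤ) ≠ 0)
    {G : ℤ → ℤ → R} (h : Homog G) : Homog (chi p n e G) := by
  intro k x y hk hxy
  have e1 := h k _ _ hk (or_w (pow_ne_zero n hp) hxy)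
  have e2 := h k _ _ hk (or_l hp hxy)
  simp only [chi]
  rw [← e1, ← e2]
  congr 1
  · congr 1
    · ring
    · ring
  · congr 2
    ring

/-- The level of the difference. -/
private theorem chi_sym {R : Type} [AddCommGroup R] {p n M : ℕ} {e₀ : ℤ} (hp : (p : ℤ) ≠ 0)
    (hM : 3 ≤ M) {G : ℤ → ℤ → R} (h : SymP p M (M + n - 1) G) :
    SymP p (M + n + 1) (M + n + 1) (chi p n e₀ G) := by
  refine ⟨chi_homog hp h.1, ?_⟩
  intro a b c d hdet hb hc
  obtain ⟨b', hb'⟩ := hb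
  obtain ⟨c', hc'⟩ := hc
  obtain ⟨e, he⟩ : ∃ e : ℕ, M + n - 1 = e ∧ M + n = e + 1 := ⟨M + n - 1, rfl, by omega⟩
  have hpM : (p : ℤ) ^ (M + n + 1) = (p : ℤ) ^ M * (p : ℤ) ^ n * p := by
    rw [← pow_add, ← pow_succ]
  have hpe : (p : ℤ) ^ (M + n + 1) = (p : ℤ) ^ (M + n - 1) * (p * p) := by
    rw [he.1, he.2, pow_succ, pow_succ]
    ring
  obtain ⟨k1, hk1⟩ := h.2 d (-((p : ℤ) ^ M * p * c')) (-((p : ℤ) ^ n * b)) a
    (by
      rw [← hdet, hc', hpM]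
      ring)
    (Dvd.dvd.neg_right ⟨p * c', by ring⟩)
    (Dvd.dvd.neg_right ⟨(p : ℤ) ^ n * (p * p) * b', by rw [hb', hpe]; ring⟩)
  obtain ⟨k2, hk2⟩ := h.2 a (p * b) ((p : ℤ) ^ M * (p : ℤ) ^ n * c') d
    (by
      rw [← hdet, hc', hpM]
      ring)
    ⟨(p : ℤ) * ((p : ℤ) ^ n * p * b'), by rw [hb', hpM]; ring⟩
    ⟨p * c', by
      have : (p : ℤ) ^ M * (p : ℤ) ^ n = (p : ℤ) ^ (M + n - 1) * p := by
        rw [← pow_add, he.1, he.2, pow_succ]
      rw [this]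
      ring⟩
  refine ⟨k1 - e₀ • k2, ?_⟩
  intro x y hxy
  have e1 := hk1 _ _ (or_w (pow_ne_zero n hp) hxy)
  have e2 := hk2 _ _ (or_l hp hxy)
  simp only [act] at e1 e2
  simp only [act, chi]
  have f1 : d * -y + -((p : ℤ) ^ M * p * c') * ((p : ℤ) ^ n * x) = -(c * x + d * y) := by
    rw [hc', hpM]
    ring
  have f2 : -((p : ℤ) ^ n * b) * -y + a * ((p : ℤ) ^ n * x) = (p : ℤ) ^ n * (a * x + b * y) := by
    ring
  have f3 : a * ((p : ℤ) * x) + p * b * y = (p : ℤ) * (a * x + b * y) := by ring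
  have f4 : (p : ℤ) ^ M * (p : ℤ) ^ n * c' * ((p : ℤ) * x) + d * y = c * x + d * y := by
    rw [hc', hpM]
    ring
  rw [f1, f2] at e1
  rw [f3, f4] at e2
  rw [e1, e2, smul_add]
  abel

/-- A symbol for `p` is a symbol for `p ^ 2`. -/
private theorem sym_sq {R : Type} [AddCommGroup R] {p r : ℕ} {G : ℤ → ℤ → R}
    (h : SymP p r r G) : SymP (p ^ 2) r r G := by
  refine ⟨h.1, fun a b c d hdet hb hc => h.2 a b c d hdet (dvd_trans ?_ hb) (dvd_trans ?_ hc)⟩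
  · push_cast
    rw [← pow_mul]
    exact pow_dvd_pow _ (by omega)
  · push_cast
    rw [← pow_mul]
    exact pow_dvd_pow _ (by omega)

theorem hUIWT : StUIWT := by
  intro hU p hpf c w n G ψ hc1 hw1 hψ hL hu hG
  have hp : (p : ℤ) ≠ 0 := by exact_mod_cast hpf.out.ne_zero
  have hcc : c * c = 1 := by
    rcases hc1 with rfl | rfl
    · norm_num
    · norm_num
  obtain ⟨k, hk⟩ := hu
  obtain ⟨c0, hc0⟩ := hG
  have hstep : ∀ x y : ℤ, (x ≠ 0 ∨ y ≠ 0) →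
      ψ ((p : ℤ) * x) y = c • (ψ x y + ((4 : ℤ) • G x y + k)) := by
    intro x y hxy
    have h1 := hk x y hxy
    have h2 : c • ψ ((p : ℤ) * x) y - ψ x y = (4 : ℤ) • G x y + k := by
      simpa [act] using h1
    rw [← h2]
    have h3 : ψ x y + (c • ψ ((p : ℤ) * x) y - ψ x y) = c • ψ ((p : ℤ) * x) y := by abel
    rw [h3, smul_smul, hcc, one_smul]
  have hG' : ∀ x y : ℤ, (x ≠ 0 ∨ y ≠ 0) → G (-y) ((p : ℤ) ^ n * x) = -(w • G x y) + c0 := by
    intro x y hxy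
    have h1 := hc0 x y hxy
    simpa [act] using h1
  -- step A
  have hA : ∀ x y : ℤ, (x ≠ 0 ∨ y ≠ 0) →
      chi p n (c * w) ψ ((p : ℤ) * x) y
        = c • chi p n (c * w) ψ x y - ((4 : ℤ) • c0 + k + w • k) := by
    intro x y hxy
    have hx : (p : ℤ) * x ≠ 0 ∨ y ≠ 0 := or_l hp hxy
    have h1 := hstep _ _ (or_w (pow_ne_zero n hp) hx)
    have h2 := hstep _ _ hx
    have h3 := hG' _ _ hx
    have h4 : ψ ((p : ℤ) * -y) ((p : ℤ) ^ n * ((p : ℤ) * x)) = ψ (-y) ((p : ℤ) ^ n * x) := by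
      rw [← hψ p _ _ hp (or_w (pow_ne_zero n hp) hxy)]
      congr 1
      ring
    rw [h4, h3] at h1
    simp only [chi]
    rw [h2, h1]
    simp only [smul_add, smul_neg, smul_sub, zsmul_eq_mul]
    push_cast
    have hcc' : (c : ℤ_[p]) * (c : ℤ_[p]) = 1 := by exact_mod_cast hcc
    linear_combination (-(ψ (-y) ((p : ℤ) ^ n * ((p : ℤ) * x)) + (w : ℤ_[p]) * k + k
      + 4 * c0)) * hcc'
  obtain ⟨K, hK⟩ : ∃ K : ℤ_[p], (4 : ℤ) • c0 + k + w • k = K := ⟨_, rfl⟩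
  rw [hK] at hA
  -- two steps
  have hB : ∀ x y : ℤ, (x ≠ 0 ∨ y ≠ 0) →
      chi p n (c * w) ψ ((p : ℤ) ^ 2 * x) y = chi p n (c * w) ψ x y - (c • K + K) := by
    intro x y hxy
    have h1 := hA x y hxy
    have h2 := hA _ _ (or_l hp hxy)
    rw [h1, smul_sub, smul_smul, hcc, one_smul] at h2
    have h3 : (p : ℤ) ^ 2 * x = (p : ℤ) * ((p : ℤ) * x) := by ring
    rw [h3, h2]
    abel
  -- reduction
  have hred : ∀ (M : ℕ), redP M (chi p n (c * w) ψ) = chi p n (c * w) (redP M ψ) := by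
    intro M
    funext x y
    simp only [redP, chi, map_sub, map_zsmul]
  have hD : ∀ x y : ℤ, (x ≠ 0 ∨ y ≠ 0) → chi p n (c * w) ψ x y = chi p n (c * w) ψ 1 0 := by
    intro x y hxy
    apply ext3
    intro M hM
    have h1 : SymP (p ^ 2) (M + n + 1) (M + n + 1) (chi p n (c * w) (redP M ψ)) :=
      sym_sq (chi_sym hp hM (hL M (by omega)))
    have h2 : EqC (act ((p ^ 2 : ℕ) : ℤ) 0 0 1 (chi p n (c * w) (redP M ψ)))
        (chi p n (c * w) (redP M ψ)) := by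
      refine ⟨-(PadicInt.toZModPow M (c • K + K)), ?_⟩
      intro x' y' h'
      rw [← hred M]
      have h3 := congrArg (PadicInt.toZModPow M) (hB x' y' h')
      rw [map_sub] at h3
      simp only [act, redP]
      push_cast
      rw [zero_mul, add_zero, zero_mul, zero_add, one_mul, h3]
      abel
    have hp2 : 2 ≤ p ^ 2 := by
      have := hpf.out.two_le
      nlinarith
    obtain ⟨c', h3⟩ := hU (p ^ 2) hp2 _ _ _ _ _ h1 h2
    have h4 := h3 x y hxy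
    have h5 := h3 1 0 (Or.inl one_ne_zero)
    have h6 : chi p n (c * w) (redP M ψ) x y = chi p n (c * w) (redP M ψ) 1 0 := by
      rw [h4, h5]
      rfl
    rw [← hred M] at h6
    exact h6
  refine ⟨chi p n (c * w) ψ 1 0, ?_⟩
  intro x y hxy
  have h1 := hD x y hxy
  rw [← h1]
  simp only [act, chi, Pi.smul_apply]
  have f1 : (0 : ℤ) * x + -1 * y = -y := by ring
  have f2 : (p : ℤ) ^ n * x + 0 * y = (p : ℤ) ^ n * x := by ring
  have f3 : (p : ℤ) * x + 0 * y = (p : ℤ) * x := by ring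
  have f4 : (0 : ℤ) * x + 1 * y = y := by ring
  rw [f1, f2, f3, f4]
  abel

end Pool.Agent.Helper73.TG
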