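import Pool.Agent.Helper57.TW.C1
import Pool.Agent.Helper47.BSD.Compl
import Pool.Agent.Helper54.PT.DefsG

/-!
# MP_1d384c_nt : module K0, classes of a completion
-/

set_option autoImplicit false

namespace Pool.Agent.Helper73.TGK0

open Pool.Agent.Helper54.PT Pool.Agent.Helper43.TW Pool.Agent.Helper47.BSD

/-- Every class of the completion is the class of an element of the field. -/
theorem exists_cl {K : Type} [Field K] {ℓ : ℕ} [Fact ℓ.Prime] (v : AbsoluteValue K ℝ)
    [IsUltrametricDist v.Completion] {π : v.Completion} (hk : LF ℓ π) (z : Cl ℓ v.Completion) :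
    ∃ x : K, x ≠ 0 ∧ cl ℓ (algebraMap K v.Completion x) = z := by
  have hℓ : ℓ.Prime := Fact.out
  obtain ⟨y, hy0, rfl⟩ := cl_surj z
  have hy' : 0 < ‖y‖ := norm_pos_iff.2 hy0
  obtain ⟨x, hx⟩ := Metric.denseRange_iff.1
    (UniformSpace.Completion.denseRange_coe (α := WithAbs v)) y ‖y‖ hy'
  have hx' : ‖y - algebraMap K v.Completion x.ofAbs‖ < ‖y‖ := by
    rw [dist_eq_norm] at hx
    exact hx
  have hne : algebraMap K v.Completion x.ofAbs ≠ 0 := by
    intro h
    rw [h, sub_zero] at hx'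
    exact lt_irrefl _ hx'
  refine ⟨x.ofAbs, fun h => hne (by rw [h, map_zero]), ?_⟩
  have h1 : ‖algebraMap K v.Completion x.ofAbs / y - 1‖ < 1 := by
    have h2 : algebraMap K v.Completion x.ofAbs / y - 1 =
        -((y - algebraMap K v.Completion x.ofAbs) / y) := by
      field_simp
      ring
    rw [h2, norm_neg, norm_div, div_lt_one hy']
    exact hx'
  obtain ⟨w, hw, -⟩ := exists_pow_near_one hℓ.pos hk.norm_ell _ h1
  rw [← sub_eq_zero, ← cl_div hne hy0, cl_eq_zero (div_ne_zero hne hy0)]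
  exact ⟨w, hw.symm⟩

end Pool.Agent.Helper73.TGK0

namespace Pool.Agent.Helper54.PT

open Polynomial Finset Filter Topology Module Pool.Agent.Helper43.TW Pool.Agent.Helper47.BSD

section Compl

/-- K0: classes of a completion -/
theorem exists_fc {K : Type} [Field K] {ℓ : ℕ} [Fact ℓ.Prime] (v : AbsoluteValue K ℝ)
    [IsUltrametricDist v.Completion] {π : v.Completion} (hk : LF ℓ π)
    (cls : K → ZMod ℓ × ZMod ℓ) (hmul : ∀ x y, x ≠ 0 → y ≠ 0 → cls (x * y) = cls x + cls y)
    (h0 : ∀ x, x ≠ 0 → (cls x = 0 ↔ ∃ y : v.Completion, algebraMap K v.Completion x = y ^ ℓ)) :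
    ∃ f : Cl ℓ v.Completion →+ ZMod ℓ × ZMod ℓ, Function.Injective f ∧
      ∀ x, x ≠ 0 → f (cl ℓ (algebraMap K v.Completion x)) = cls x := by
  have hℓ : ℓ.Prime := Fact.out
  have hne : ∀ x : K, x ≠ 0 → algebraMap K v.Completion x ≠ 0 := fun x hx => by
    rwa [Ne, map_eq_zero]
  have hwd : ∀ x x' : K, x ≠ 0 → x' ≠ 0 →
      cl ℓ (algebraMap K v.Completion x) = cl ℓ (algebraMap K v.Completion x') →
      cls x = cls x' := by
    intro x x' hx hx' h
    have h1 : x / x' ≠ 0 := div_ne_zero hx hx'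
    have h2 : cls (x / x') = 0 := by
      rw [h0 _ h1, map_div₀, ← cl_eq_zero (div_ne_zero (hne x hx) (hne x' hx')),
        cl_div (hne x hx) (hne x' hx'), h, sub_self]
    have h3 : cls x = cls (x / x') + cls x' := by
      rw [← hmul _ _ h1 hx', div_mul_cancel₀ x hx']
    rw [h3, h2, zero_add]
  choose g hg0 hg using Pool.Agent.Helper73.TGK0.exists_cl v hk
  refine ⟨AddMonoidHom.mk' (fun z => cls (g z)) ?_, ?_, ?_⟩
  · intro z z'
    rw [← hmul _ _ (hg0 z) (hg0 z')]
    refine hwd _ _ (hg0 _) (mul_ne_zero (hg0 z) (hg0 z')) ?_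
    rw [hg, map_mul, cl_mul (hne _ (hg0 z)) (hne _ (hg0 z')), hg, hg]
  · rw [injective_iff_map_eq_zero]
    intro z hz
    have h1 : cls (g z) = 0 := hz
    rw [h0 _ (hg0 z)] at h1
    rw [← hg z]
    exact (cl_eq_zero (hne _ (hg0 z))).2 h1
  · intro x hx
    exact hwd _ _ (hg0 _) hx (hg _)

end Compl

end Pool.Agent.Helper54.PT
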