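import Pool.Agent.Helper36.TW.C10C11
import Pool.Agent.Helper54.PT.DefsG

/-!
# MP_1d384c_nt : module E2, one totally singular subspace
-/

set_option autoImplicit false

namespace Pool.Agent.Helper73.TGE2

open Finset hiding ext
open Module Pool.Agent.Helper54.PT

variable {ι : Type} [Fintype ι] [DecidableEq ι] {a : ι → ℕ} {i₀ : ι}

theorem one_cast {n : ℕ} (h : ¬ 2 ∣ n) : (n : ZMod 2) = 1 := by
  have h1 : (n : ZMod 2) ≠ 0 := by
    rwa [Ne, ZMod.natCast_eq_zero_iff]
  revert h1
  generalize (n : ZMod 2) = x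
  revert x
  decide

theorem ext_smul (c : ZMod 2) (v : {j : ι // j ≠ i₀} → ZMod 2) (i : ι) :
    ext a i₀ (c • v) i = c * ext a i₀ v i := by
  unfold ext
  split_ifs with h
  · simp only [Pi.smul_apply, smul_eq_mul, mul_sum, mul_neg]
    congr 1
    refine sum_congr rfl fun j _ => ?_
    ring
  · rfl

/-- The linear functional attached to a vector. -/
def fn (a : ι → ℕ) (i₀ : ι) (u : ι → ZMod 2) : ({j : ι // j ≠ i₀} → ZMod 2) →ₗ[ZMod 2] ZMod 2 where
  toFun v := ∑ i, ext a i₀ v i * u i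
  map_add' v v' := by
    rw [← sum_add_distrib]
    refine sum_congr rfl fun i _ => ?_
    rw [ext_add, Pi.add_apply, add_mul]
  map_smul' c v := by
    rw [RingHom.id_apply, smul_eq_mul, mul_sum]
    refine sum_congr rfl fun i _ => ?_
    rw [ext_smul, mul_assoc]

theorem fn_apply (u : ι → ZMod 2) (v : {j : ι // j ≠ i₀} → ZMod 2) :
    fn a i₀ u v = ∑ i, ext a i₀ v i * u i := rfl

end Pool.Agent.Helper73.TGE2

namespace Pool.Agent.Helper54.PT

open Finset Module Pool.Agent.Helper47.BSD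

section LagTwo

variable {ι : Type} [Fintype ι] [DecidableEq ι] {a : ι → ℕ} {i₀ : ι}

open Pool.Agent.Helper73.TGE2 in
/-- E2: one totally singular subspace -/
theorem exists_N0 (ha : ∀ i, ¬ 2 ∣ a i) (hs : ¬ 2 ∣ ∑ i, a i) (g : ι → ZMod 2 × ZMod 2)
    (hg : ∑ i, g i = 0) (hg2 : ∑ i, (g i).1 * (g i).2 = 0) :
    ∃ N : Submodule (ZMod 2) (LSG 2 i₀), finrank (ZMod 2) N = Fintype.card {j : ι // j ≠ i₀} ∧
      ∀ w ∈ N, qG a i₀ g w = 0 := by
  have hcast : ∀ i, (a i : ZMod 2) = 1 := fun i => one_cast (ha i)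
  have hcard : ∑ _i : ι, (1 : ZMod 2) = 1 := by
    have h1 := one_cast hs
    rw [Nat.cast_sum] at h1
    exact (sum_congr rfl fun i _ => (hcast i).symm).trans h1
  have hg1s : ∑ i, (g i).1 = 0 := by
    have := congrArg Prod.fst hg
    rwa [Prod.fst_sum] at this
  have hg2s : ∑ i, (g i).2 = 0 := by
    have := congrArg Prod.snd hg
    rwa [Prod.snd_sum] at this
  by_cases h0 : ∀ i, (g i).1 = 0
  · refine ⟨LinearMap.range (LinearMap.inr (ZMod 2) ({j : ι // j ≠ i₀} → ZMod 2)
      ({j : ι // j ≠ i₀} → ZMod 2)), ?_, ?_⟩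
    · rw [LinearMap.finrank_range_of_inj LinearMap.inr_injective, finrank_fintype_fun_eq_card]
    · rintro _ ⟨v, rfl⟩
      unfold qG
      refine sum_eq_zero fun i _ => ?_
      have h1 : ext a i₀ (0 : {j : ι // j ≠ i₀} → ZMod 2) i = 0 := ext_zero a i₀ i
      simp only [exG, LinearMap.inr_apply, pzG, h1, h0 i]
      ring
  · have hex : ∃ i j, (g i).1 = 1 ∧ (g j).1 = 0 := by
      push Not at h0
      obtain ⟨i, hi⟩ := h0
      by_contra hcon
      push Not at hcon
      have h2 : ∀ x : ZMod 2, x ≠ 0 → x = 1 := by decide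
      have hi1 : (g i).1 = 1 := h2 _ hi
      have hall : ∀ j, (g j).1 = 1 := fun j => h2 _ (hcon i j hi1)
      have : ∑ i, (g i).1 = 1 := by
        rw [← hcard]
        exact sum_congr rfl fun j _ => hall j
      rw [hg1s] at this
      exact absurd this (by decide)
    obtain ⟨p, q, hp, hq⟩ := hex
    have hpq : p ≠ q := by
      rintro rfl
      rw [hp] at hq
      exact absurd hq (by decide)
    let y0 : ι → ZMod 2 := fun i => (if i = p then 1 else 0) + (if i = q then 1 else 0)
    have hy0s : ∑ i, y0 i = 0 := by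
      simp only [y0, sum_add_distrib, sum_ite_eq', mem_univ, if_true]
      decide
    have hy0g : ∑ i, y0 i * (g i).1 = 1 := by
      simp only [y0, add_mul, sum_add_distrib, ite_mul, one_mul, zero_mul, sum_ite_eq', mem_univ,
        if_true, hp, hq, add_zero]
    let G2 : ι → ZMod 2 := fun i => (g i).2
    let r : (ι → ZMod 2) → ({j : ι // j ≠ i₀} → ZMod 2) := fun u j => u j.1
    let Φ : ({j : ι // j ≠ i₀} → ZMod 2) →ₗ[ZMod 2] LSG 2 i₀ :=
      LinearMap.prod LinearMap.id ((fn a i₀ G2).smulRight (r y0) + (fn a i₀ y0).smulRight (r G2))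
    refine ⟨LinearMap.range Φ, ?_, ?_⟩
    · have hinj : Function.Injective Φ := by
        intro v v' h
        exact congrArg Prod.fst h
      rw [LinearMap.finrank_range_of_inj hinj, finrank_fintype_fun_eq_card]
    · rintro _ ⟨v, rfl⟩
      have hz : ∀ i, ext a i₀ (Φ v).2 i = fn a i₀ G2 v * y0 i + fn a i₀ y0 v * G2 i := by
        intro i
        have h1 : (Φ v).2 = r (fun i => fn a i₀ G2 v * y0 i + fn a i₀ y0 v * G2 i) := by
          funext j
          simp [Φ, r, LinearMap.prod_apply, LinearMap.smulRight_apply]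
        rw [h1]
        have h2 := C11_ext a i₀ (ha i₀) (fun i => fn a i₀ G2 v * y0 i + fn a i₀ y0 v * G2 i)
          (by
            simp only [hcast, one_mul, sum_add_distrib, ← mul_sum]
            rw [hy0s, show ∑ i, G2 i = 0 from hg2s]
            ring) (r (fun i => fn a i₀ G2 v * y0 i + fn a i₀ y0 v * G2 i)) fun j => rfl
        exact congrFun h2 i
      have hx : (Φ v).1 = v := rfl
      have hA : ∑ i, ext a i₀ v i * y0 i = fn a i₀ y0 v := rfl
      have hB : ∑ i, ext a i₀ v i * (g i).2 = fn a i₀ G2 v := rfl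
      have h2 : ∀ x : ZMod 2, x + x = 0 := by decide
      have hsum : qG a i₀ g (Φ v) = fn a i₀ G2 v * (∑ i, ext a i₀ v i * y0 i) +
          fn a i₀ y0 v * (∑ i, ext a i₀ v i * (g i).2) + ∑ i, ext a i₀ v i * (g i).2 -
          (fn a i₀ G2 v * (∑ i, y0 i * (g i).1) + fn a i₀ y0 v * ∑ i, (g i).1 * (g i).2) := by
        unfold qG
        simp only [mul_sum, ← sum_add_distrib, ← sum_sub_distrib]
        refine sum_congr rfl fun i _ => ?_
        simp only [exG, pzG, hz i, hx, G2]
        ring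
      rw [hsum, hA, hB, hy0g, hg2]
      have h3 : fn a i₀ G2 v * fn a i₀ y0 v + fn a i₀ y0 v * fn a i₀ G2 v = 0 := by
        rw [mul_comm (fn a i₀ y0 v)]
        exact h2 _
      linear_combination h3

end LagTwo

end Pool.Agent.Helper54.PT
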